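import Pool.Agent.V1184.MD.Tuple

/-!
# MP_db38ce_nt, every `n ≥ 4`

For every `n ≥ 4` there are infinitely many `n`-tuples of pairwise distinct integers larger than
`1` such that both `(a_1, …, a_n)` and `(a_1 + 1, …, a_n + 1)` are `n`-multiplicatively dependent.

`MulDepOn` (multiplicative dependence of the subtuple indexed by a set) and `KMulDep`
(`k`-multiplicative dependence) are defined in `Pool/Agent/V1184/MD/Basic.lean`.
-/

namespace Pool.Agent.Results.MP_db38ce_nt.AllFromFour

open Pool.Agent.V1184.MD

theorem result (n : ℕ) (hn : 4 ≤ n) :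
    {a : Fin n → ℤ | Function.Injective a ∧ (∀ i, 1 < a i) ∧ KMulDep n a ∧
      KMulDep n (fun i => a i + 1)}.Infinite :=
  main n hn

end Pool.Agent.Results.MP_db38ce_nt.AllFromFour
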